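import Pool.Agent.Q30.RG.Var

/-!
# Consequences of the inequality of Courant and Lebesgue (helper30)
-/

set_option autoImplicit false

universe u v w

open Set Filter Topology

namespace Pool.Agent.Q30.RG

/-- the inequality of Courant and Lebesgue with constant `K` -/
def CL {G : Type v} [Group G] (l : G → ℝ) (S : Finset G) (K : ℝ) : Prop :=
  ∀ f : G → ℝ, NoExt S f → ∀ (r : ℝ) (p q : G), 1 ≤ r → l p ≤ r → l q ≤ r →
    ∃ W : Finset G, (W.card : ℝ) ≤ K * r ∧ (∀ x ∈ W, |l x - r| ≤ K) ∧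
      |f p - f q| ≤ K * ∑ x ∈ W, tv S f x

theorem jensen {ι : Type v} (W : Finset ι) (u : ι → ℝ) (hu : ∀ i, 0 ≤ u i) (Φ : ℝ → ℝ)
    (hΦ : ConvexOn ℝ (Set.Ici 0) Φ) (h0 : Φ 0 = 0) (hp : ∀ t, 0 ≤ t → 0 ≤ Φ t) (δ N : ℝ)
    (hδ : 0 < δ) (hA : δ ≤ ∑ i ∈ W, u i) (hN : (W.card : ℝ) ≤ N) :
    N * Φ (δ / N) ≤ ∑ i ∈ W, Φ (u i) := by
  set A := ∑ i ∈ W, u i with hAdef
  have hA0 : 0 < A := hδ.trans_le hA
  have hn : 0 < W.card := by
    rw [Finset.card_pos]
    by_contra h
    rw [Finset.not_nonempty_iff_eq_empty] at h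
    rw [hAdef, h, Finset.sum_empty] at hA0
    exact lt_irrefl _ hA0
  have hn' : (0 : ℝ) < W.card := by exact_mod_cast hn
  have hN0 : 0 < N := hn'.trans_le hN
  have h1 := hΦ.map_sum_le (t := W) (w := fun _ => (W.card : ℝ)⁻¹) (p := u)
    (fun i _ => by positivity) (by
      rw [Finset.sum_const, nsmul_eq_mul]
      exact mul_inv_cancel₀ hn'.ne') (fun i _ => hu i)
  simp only [smul_eq_mul] at h1
  rw [← Finset.mul_sum, ← Finset.mul_sum, ← hAdef] at h1
  have h2 : W.card * Φ ((W.card : ℝ)⁻¹ * A) ≤ ∑ i ∈ W, Φ (u i) := by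
    have := mul_le_mul_of_nonneg_left h1 hn'.le
    rwa [← mul_assoc (W.card : ℝ) _ (∑ i ∈ W, Φ (u i)), mul_inv_cancel₀ hn'.ne', one_mul] at this
  refine le_trans ?_ h2
  set a : ℝ := (W.card : ℝ) * δ / (N * A) with ha
  have ha0 : 0 ≤ a := by positivity
  have ha1 : a ≤ 1 := by
    rw [ha, div_le_one (by positivity)]
    exact mul_le_mul hN hA hδ.le hN0.le
  have h3 := hΦ.2 (x := (W.card : ℝ)⁻¹ * A) (by
    show (0 : ℝ) ≤ _
    positivity) (y := 0) (by simp) ha0 (sub_nonneg.2 ha1) (by ring)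
  simp only [smul_eq_mul, mul_zero, add_zero, h0] at h3
  have h4 : a * ((W.card : ℝ)⁻¹ * A) = δ / N := by
    rw [ha]
    field_simp
  rw [h4] at h3
  have hP : 0 ≤ Φ ((W.card : ℝ)⁻¹ * A) := hp _ (by positivity)
  have h5 : N * a ≤ W.card := by
    rw [ha, mul_div_assoc', div_le_iff₀ (by positivity)]
    calc N * (W.card * δ) = W.card * (N * δ) := by ring
      _ ≤ W.card * (N * A) := by gcongr
  calc N * Φ (δ / N) ≤ N * (a * Φ ((W.card : ℝ)⁻¹ * A)) := mul_le_mul_of_nonneg_left h3 hN0.le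
    _ = N * a * Φ ((W.card : ℝ)⁻¹ * A) := by ring
    _ ≤ _ := mul_le_mul_of_nonneg_right h5 hP

/-- functions without local extrema of finite `Φ`-energy are constant if `∑ n Φ (δ / n) = ∞` -/
theorem orlicz {G : Type v} [Group G] (l : G → ℝ) (S : Finset G) (K : ℝ) (hK : 0 < K)
    (hCL : CL l S K) (f : G → ℝ) (hf : NoExt S f) (Φ : ℝ → ℝ)
    (hΦ : ConvexOn ℝ (Set.Ici 0) Φ) (h0 : Φ 0 = 0) (hp : ∀ t, 0 ≤ t → 0 ≤ Φ t)
    (hdiv : ∀ δ : ℝ, 0 < δ → ¬ Summable (fun n : ℕ => (n : ℝ) * Φ (δ / n)))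
    (hsum : Summable (fun g => Φ (tv S f g))) (p q : G) : f p = f q := by
  classical
  by_contra hpq
  have hδ0 : 0 < |f p - f q| := abs_pos.2 (sub_ne_zero.2 hpq)
  set Λ : ℝ := 2 * K + 1 with hΛ
  set r₁ : ℝ := max 1 (max (l p) (l q)) with hr₁
  obtain ⟨j₀, hj₀⟩ := exists_nat_gt r₁
  have hj₀1 : (1 : ℝ) < j₀ := (le_max_left _ _).trans_lt hj₀
  have hW : ∀ j : ℕ, ∃ W : Finset G, j₀ ≤ j → (W.card : ℝ) ≤ K * (j * Λ) ∧
      (∀ x ∈ W, |l x - j * Λ| ≤ K) ∧ |f p - f q| ≤ K * ∑ x ∈ W, tv S f x := by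
    intro j
    by_cases hj : j₀ ≤ j
    · have h1 : (j₀ : ℝ) ≤ j := by exact_mod_cast hj
      have h2 : (j : ℝ) ≤ j * Λ := by
        have : 0 ≤ (j : ℝ) * (2 * K) := by positivity
        rw [hΛ]
        linarith
      have h3 : r₁ ≤ j * Λ := by linarith
      obtain ⟨W, hW⟩ := hCL f hf (j * Λ) p q ((le_max_left _ _).trans h3)
        ((le_max_left _ _).trans ((le_max_right _ _).trans h3))
        ((le_max_right _ _).trans ((le_max_right _ _).trans h3))
      exact ⟨W, fun _ => hW⟩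
    · exact ⟨∅, fun h => absurd h hj⟩
  choose W hW using hW
  have hδ1 : 0 < |f p - f q| / K / (K * Λ) := by positivity
  refine hdiv _ hδ1 ?_
  rw [← summable_nat_add_iff j₀]
  refine summable_of_sum_range_le (c := (∑' g, Φ (tv S f g)) / (K * Λ)) ?_ ?_
  · intro n
    refine mul_nonneg (Nat.cast_nonneg _) (hp _ ?_)
    positivity
  · intro n
    have hterm : ∀ j : ℕ, j₀ ≤ j → K * Λ * ((j : ℝ) * Φ (|f p - f q| / K / (K * Λ) / j)) ≤
        ∑ x ∈ W j, Φ (tv S f x) := by
      intro j hj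
      obtain ⟨h1, h2, h3⟩ := hW j hj
      have hj1 : (j₀ : ℝ) ≤ j := by exact_mod_cast hj
      have hj0 : (0 : ℝ) < j := by linarith
      have h4 := jensen (W j) (tv S f) (fun g => tv_nonneg S f g) Φ hΦ h0 hp (|f p - f q| / K)
        (K * (j * Λ)) (by positivity) (by
          rw [div_le_iff₀ hK, mul_comm]
          exact h3) h1
      have h5 : |f p - f q| / K / (K * (j * Λ)) = |f p - f q| / K / (K * Λ) / j := by
        field_simp
      rw [h5] at h4
      calc K * Λ * ((j : ℝ) * Φ (|f p - f q| / K / (K * Λ) / j)) =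
          K * (j * Λ) * Φ (|f p - f q| / K / (K * Λ) / j) := by ring
        _ ≤ _ := h4
    rw [le_div_iff₀ (by positivity), Finset.sum_mul]
    have h1 : ∑ i ∈ Finset.range n, ((i + j₀ : ℕ) : ℝ) *
        Φ (|f p - f q| / K / (K * Λ) / ((i + j₀ : ℕ) : ℝ)) * (K * Λ) ≤
        ∑ i ∈ Finset.range n, ∑ x ∈ W (i + j₀), Φ (tv S f x) := by
      refine Finset.sum_le_sum fun i _ => ?_
      have := hterm (i + j₀) (by omega)
      linarith
    refine h1.trans ?_
    rw [← Finset.sum_biUnion]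
    · exact hsum.sum_le_tsum _ (fun g _ => hp _ (tv_nonneg S f g))
    · have key : ∀ i j : ℕ, i < j → Disjoint (W (i + j₀)) (W (j + j₀)) := by
        intro i j hij
        rw [Finset.disjoint_left]
        intro g hg hg'
        have h2 := (hW (i + j₀) (by omega)).2.1 g hg
        have h3 := (hW (j + j₀) (by omega)).2.1 g hg'
        rw [abs_le] at h2 h3
        push_cast at h2 h3
        have h4 : (i : ℝ) + 1 ≤ j := by exact_mod_cast hij
        have h5 : ((i : ℝ) + 1) * Λ ≤ j * Λ := mul_le_mul_of_nonneg_right h4 (by linarith)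
        nlinarith [h2.1, h2.2, h3.1, h3.2]
      intro i _ j _ hij
      rcases lt_or_gt_of_ne hij with h | h
      · exact key i j h
      · exact (key j i h).symm

/-- functions without local extrema and with gradient `o(1 / |g|)` are constant -/
theorem small {G : Type v} [Group G] (l : G → ℝ) (S : Finset G) (K : ℝ) (hK : 0 < K)
    (hCL : CL l S K) (f : G → ℝ) (hf : NoExt S f)
    (hs : ∀ s ∈ S, Tendsto (fun g => l g * (f (g * s) - f g)) cofinite (𝓝 0)) (p q : G) :
    f p = f q := by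
  classical
  by_contra hpq
  have hδ0 : 0 < |f p - f q| := abs_pos.2 (sub_ne_zero.2 hpq)
  set ε : ℝ := |f p - f q| / (2 * (K * K * (2 * ((S.card : ℝ) + 1)))) with hε
  have hε0 : 0 < ε := by positivity
  -- far away the gradient is small
  have h1 : ∀ s ∈ S, {g : G | ε ≤ |l g * (f (g * s) - f g)|}.Finite := by
    intro s hs'
    have h2 := (hs s hs').eventually (Metric.ball_mem_nhds (0 : ℝ) hε0)
    rw [Filter.eventually_cofinite] at h2
    refine h2.subset fun g hg => ?_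
    simp only [Set.mem_ofPred_eq, Real.dist_eq, sub_zero, not_lt] at hg ⊢
    exact hg
  have h2 : (⋃ s ∈ S, {g : G | ε ≤ |l g * (f (g * s) - f g)|}).Finite :=
    Set.Finite.biUnion S.finite_toSet h1
  obtain ⟨R, hR⟩ : ∃ R : ℝ, ∀ g ∈ (⋃ s ∈ S, {g : G | ε ≤ |l g * (f (g * s) - f g)|}), l g ≤ R := by
    obtain ⟨R, hR⟩ := (h2.image l).bddAbove
    exact ⟨R, fun g hg => hR ⟨g, hg, rfl⟩⟩
  set r : ℝ := max (2 * K) (max (|R| + K) (max (l p) (l q))) + 1 with hr
  have hr1 : 2 * K ≤ r - 1 := by rw [hr]; simp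
  have hr2 : |R| + K ≤ r - 1 := by
    rw [hr, add_sub_cancel_right]
    exact (le_max_left _ _).trans (le_max_right _ _)
  have hr3 : l p ≤ r - 1 := by
    rw [hr, add_sub_cancel_right]
    exact (le_max_left _ _).trans ((le_max_right _ _).trans (le_max_right _ _))
  have hr4 : l q ≤ r - 1 := by
    rw [hr, add_sub_cancel_right]
    exact (le_max_right _ _).trans ((le_max_right _ _).trans (le_max_right _ _))
  obtain ⟨W, hW1, hW2, hW3⟩ := hCL f hf r p q (by linarith) (by linarith) (by linarith)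
  have h3 : ∀ x ∈ W, tv S f x ≤ S.card * (2 * ε / r) := by
    intro x hx
    have h4 := hW2 x hx
    rw [abs_le] at h4
    have h5 : r / 2 ≤ l x := by linarith [h4.1]
    have h6 : R < l x := by
      have := le_abs_self R
      linarith [h4.1]
    unfold tv
    rw [← nsmul_eq_mul]
    refine Finset.sum_le_card_nsmul _ _ _ fun s hs' => ?_
    by_contra h7
    push Not at h7
    have h8 : ε ≤ |l x * (f (x * s) - f x)| := by
      rw [abs_mul, abs_of_nonneg (by linarith : (0 : ℝ) ≤ l x)]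
      have h9 : r / 2 * (2 * ε / r) ≤ l x * |f (x * s) - f x| :=
        mul_le_mul h5 h7.le (by positivity) (by linarith)
      have h10 : r / 2 * (2 * ε / r) = ε := by
        have : r ≠ 0 := by linarith
        field_simp
      linarith
    have h9 := hR x (Set.mem_biUnion hs' h8)
    linarith
  have h4 := Finset.sum_le_card_nsmul W _ _ h3
  rw [nsmul_eq_mul] at h4
  have hr0 : 0 < r := by linarith
  have h5 : (W.card : ℝ) * (S.card * (2 * ε / r)) ≤ K * r * (S.card * (2 * ε / r)) :=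
    mul_le_mul_of_nonneg_right hW1 (by positivity)
  have h6 : K * r * (S.card * (2 * ε / r)) = K * (2 * S.card) * ε := by
    field_simp
  have h7 : K * ∑ x ∈ W, tv S f x ≤ K * (K * (2 * S.card) * ε) :=
    mul_le_mul_of_nonneg_left (by linarith) hK.le
  have h8 : K * (K * (2 * S.card) * ε) ≤ K * K * (2 * ((S.card : ℝ) + 1)) * ε := by
    have : 0 ≤ K * K * 2 * ε := by positivity
    nlinarith
  have h9 : K * K * (2 * ((S.card : ℝ) + 1)) * ε = |f p - f q| / 2 := by
    rw [hε]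
    field_simp
  linarith

/-- harmonic cocycles with coefficients `o(1 / |g|)` vanish -/
theorem cocycle {G : Type v} [Group G] (l : G → ℝ) (S : Finset G) (K : ℝ) (hK : 0 < K) (hCL : CL l S K)
    {V : Type w} [AddCommGroup V] [Module ℝ V] (π : G → V →ₗ[ℝ] V) (b : G → V)
    (hb : ∀ g h, b (g * h) = b g + π g (b h)) (hharm : ∑ s ∈ S, b s = 0) (φ : V →ₗ[ℝ] ℝ)
    (hdec : ∀ s ∈ S, Tendsto (fun g => l g * φ (π g (b s))) cofinite (𝓝 0)) (p q : G) :
    φ (b p) = φ (b q) := by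
  have hd : ∀ g s, φ (b (g * s)) - φ (b g) = φ (π g (b s)) := by
    intro g s
    rw [hb, map_add]
    ring
  have hzero : ∀ g, ∑ s ∈ S, (φ (b (g * s)) - φ (b g)) = 0 := by
    intro g
    rw [Finset.sum_congr rfl fun s _ => hd g s, ← map_sum, ← map_sum, hharm, map_zero, map_zero]
  refine small l S K hK hCL (fun g => φ (b g)) ?_ ?_ p q
  · intro g hg s hs
    rcases hg with h | h
    · have h1 := (Finset.sum_eq_zero_iff_of_nonpos (fun t ht => sub_nonpos.2 (h t ht))).1
        (hzero g) s hs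
      linarith
    · have h1 := (Finset.sum_eq_zero_iff_of_nonneg (fun t ht => sub_nonneg.2 (h t ht))).1
        (hzero g) s hs
      linarith
  · intro s hs
    simp only [hd]
    exact hdec s hs

end Pool.Agent.Q30.RG
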