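import Pool.Agent.Y34.EL.All

/-!
# The inequality of Courant and Lebesgue for groups with walks on spheres (helper30)

Let `l` be a proper length function on `G` such that elements of length about `r` are joined by
walks of at most `C (r + 1)` bounded steps which stay near the sphere of radius `r`.  Then the
difference of two values of a function without local extrema on the ball of radius `r` is bounded
by its variation on a set of at most `C r` elements near the sphere of radius `r`.
-/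

set_option autoImplicit false

universe u v w

open Metric Set Filter Topology
open Pool.Agent.TH60.FP Pool.Agent.Y34.HB Pool.Agent.Y34.EL

namespace Pool.Agent.Q30.RG

/-- the variation of `f` at `g` -/
noncomputable def tv {G : Type v} [Group G] (S : Finset G) (f : G → ℝ) (g : G) : ℝ :=
  ∑ s ∈ S, |f (g * s) - f g|

/-- no strict local extrema: if `f` has a local maximum or minimum at `g` then `f` is constant
on the neighbours of `g` -/
def NoExt {G : Type v} [Group G] (S : Finset G) (f : G → ℝ) : Prop :=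
  ∀ g : G, ((∀ s ∈ S, f (g * s) ≤ f g) ∨ (∀ s ∈ S, f g ≤ f (g * s))) → ∀ s ∈ S, f (g * s) = f g

theorem tv_nonneg {G : Type v} [Group G] (S : Finset G) (f : G → ℝ) (g : G) : 0 ≤ tv S f g :=
  Finset.sum_nonneg fun _ _ => abs_nonneg _

theorem step {G : Type v} [Group G] (S : Finset G) (hgen : Subgroup.closure (S : Set G) = ⊤)
    (k : G) : ∃ (c : ℝ) (P : Finset G), 0 ≤ c ∧ ∀ (f : G → ℝ) (g : G),
      |f (g * k) - f g| ≤ c * ∑ w ∈ P, tv S f (g * w) := by
  classical
  have hk : k ∈ Subgroup.closure (S : Set G) := by rw [hgen]; trivial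
  induction hk using Subgroup.closure_induction with
  | mem s hs =>
    refine ⟨1, {1}, zero_le_one, fun f g => ?_⟩
    rw [one_mul, Finset.sum_singleton, mul_one]
    exact Finset.single_le_sum (f := fun s => |f (g * s) - f g|)
      (fun s _ => abs_nonneg _) (Finset.mem_coe.1 hs)
  | one =>
    refine ⟨0, ∅, le_refl _, fun f g => ?_⟩
    simp
  | mul k k' _ _ h h' =>
    obtain ⟨c, P, hc, h⟩ := h
    obtain ⟨c', P', hc', h'⟩ := h'
    refine ⟨c + c', P ∪ P'.image (fun w => k * w), add_nonneg hc hc', fun f g => ?_⟩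
    have h1 := h f g
    have h2 := h' f (g * k)
    have h3 : ∑ w ∈ P', tv S f (g * k * w) = ∑ w ∈ P'.image (fun w => k * w), tv S f (g * w) := by
      rw [Finset.sum_image (fun a _ b _ hab => mul_left_cancel hab)]
      exact Finset.sum_congr rfl fun w _ => by rw [mul_assoc]
    have h4 : ∑ w ∈ P, tv S f (g * w) ≤ ∑ w ∈ P ∪ P'.image (fun w => k * w), tv S f (g * w) :=
      Finset.sum_le_sum_of_subset_of_nonneg Finset.subset_union_left
        (fun w _ _ => tv_nonneg S f _)
    have h5 : ∑ w ∈ P'.image (fun w => k * w), tv S f (g * w) ≤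
        ∑ w ∈ P ∪ P'.image (fun w => k * w), tv S f (g * w) :=
      Finset.sum_le_sum_of_subset_of_nonneg Finset.subset_union_right
        (fun w _ _ => tv_nonneg S f _)
    have h6 : |f (g * (k * k')) - f g| ≤ |f (g * k * k') - f (g * k)| + |f (g * k) - f g| := by
      rw [← mul_assoc]
      exact abs_sub_le _ _ _
    rw [h3] at h2
    have h7 := mul_le_mul_of_nonneg_left h4 hc
    have h8 := mul_le_mul_of_nonneg_left h5 hc'
    rw [add_mul]
    linarith
  | inv k _ h =>
    obtain ⟨c, P, hc, h⟩ := h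
    refine ⟨c, P.image (fun w => k⁻¹ * w), hc, fun f g => ?_⟩
    have h1 := h f (g * k⁻¹)
    rw [inv_mul_cancel_right, abs_sub_comm] at h1
    have h3 : ∑ w ∈ P, tv S f (g * k⁻¹ * w) =
        ∑ w ∈ P.image (fun w => k⁻¹ * w), tv S f (g * w) := by
      rw [Finset.sum_image (fun a _ b _ hab => mul_left_cancel hab)]
      exact Finset.sum_congr rfl fun w _ => by rw [mul_assoc]
    rwa [h3] at h1

theorem steps {G : Type v} [Group G] (S : Finset G) (hgen : Subgroup.closure (S : Set G) = ⊤)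
    (F : Finset G) : ∃ (c : ℝ) (P : Finset G), 0 ≤ c ∧ ∀ k ∈ F, ∀ (f : G → ℝ) (g : G),
      |f (g * k) - f g| ≤ c * ∑ w ∈ P, tv S f (g * w) := by
  classical
  choose c P hc h using step S hgen
  refine ⟨∑ k ∈ F, c k, F.biUnion P, Finset.sum_nonneg fun k _ => hc k, fun k hk f g => ?_⟩
  refine (h k f g).trans ?_
  have h1 : c k ≤ ∑ k ∈ F, c k := Finset.single_le_sum (fun k _ => hc k) hk
  have h2 : ∑ w ∈ P k, tv S f (g * w) ≤ ∑ w ∈ F.biUnion P, tv S f (g * w) :=
    Finset.sum_le_sum_of_subset_of_nonneg (Finset.subset_biUnion_of_mem P hk)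
      (fun w _ _ => tv_nonneg S f _)
  exact mul_le_mul h1 h2 (Finset.sum_nonneg fun w _ => tv_nonneg S f _)
    (Finset.sum_nonneg fun k _ => hc k)

/-- the abstract form -/
theorem core {G : Type v} [Group G] (l : G → ℝ) (hf : ∀ R : ℝ, {g : G | l g ≤ R}.Finite)
    (hmul : ∀ g k : G, l (g * k) ≤ l g + l k) (hinv : ∀ g : G, l g⁻¹ = l g)
    (S : Finset G) (hgen : Subgroup.closure (S : Set G) = ⊤)
    (D B C : ℝ)
    (hw : ∀ (r : ℝ) (g h : G), 0 ≤ r → r ≤ l g → l g ≤ r + D → r ≤ l h → l h ≤ r + D →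
      ∃ (n : ℕ) (x : ℕ → G), (n : ℝ) ≤ C * (r + 1) ∧ x 0 = g ∧ x n = h ∧
      (∀ i, i ≤ n → r - B ≤ l (x i) ∧ l (x i) ≤ r + B) ∧
      ∀ i, i < n → l ((x i)⁻¹ * x (i + 1)) ≤ B) :
    ∃ K : ℝ, 0 < K ∧ ∀ (f : G → ℝ) (r : ℝ) (g h : G), 0 ≤ r → r ≤ l g → l g ≤ r + D →
      r ≤ l h → l h ≤ r + D → ∃ W : Finset G, (W.card : ℝ) ≤ K * (r + 1) ∧
        (∀ x ∈ W, |l x - r| ≤ K) ∧ |f g - f h| ≤ K * ∑ x ∈ W, tv S f x := by
  classical
  obtain ⟨c, P, hc, hst⟩ := steps S hgen (hf B).toFinset
  set M : ℝ := ∑ p ∈ P, |l p| with hM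
  have hM0 : 0 ≤ M := Finset.sum_nonneg fun _ _ => abs_nonneg _
  have hP0 : (0 : ℝ) ≤ (P.card : ℝ) := Nat.cast_nonneg _
  refine ⟨|C| * P.card + (|B| + M) + c * P.card + 1, by positivity,
    fun f r g h hr hg1 hg2 hh1 hh2 => ?_⟩
  obtain ⟨n, x, hn, hx0, hxn, hxa, hxs⟩ := hw r g h hr hg1 hg2 hh1 hh2
  obtain ⟨m, y, hmn, hy0, hym, hya, hys, hyi⟩ := Pool.Agent.Y899.EL.Cap.noloop
    (fun g => r - B ≤ l g ∧ l g ≤ r + B) (fun g g' => l (g⁻¹ * g') ≤ B) n x hxa hxs
  have hinj : Set.InjOn y (Finset.range m : Set ℕ) := by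
    intro i hi j hj hij
    have hi' := Finset.mem_range.1 (Finset.mem_coe.1 hi)
    have hj' := Finset.mem_range.1 (Finset.mem_coe.1 hj)
    rcases lt_trichotomy i j with hlt | heq | hgt
    · exact absurd hij (hyi i j hlt hj'.le)
    · exact heq
    · exact absurd hij.symm (hyi j i hgt hi'.le)
  set Y : Finset G := (Finset.range m).image y with hY
  set W : Finset G := P.biUnion (fun w => Y.image (fun g => g * w)) with hW
  have hYc : (Y.card : ℝ) ≤ |C| * (r + 1) := by
    have h1 : Y.card ≤ m := by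
      rw [hY]
      exact Finset.card_image_le.trans (by rw [Finset.card_range])
    have h2 : (Y.card : ℝ) ≤ n := by exact_mod_cast h1.trans hmn
    have h3 : C * (r + 1) ≤ |C| * (r + 1) :=
      mul_le_mul_of_nonneg_right (le_abs_self C) (by linarith)
    linarith
  have hsum0 : 0 ≤ ∑ x ∈ W, tv S f x := Finset.sum_nonneg fun x _ => tv_nonneg S f x
  refine ⟨W, ?_, ?_, ?_⟩
  · have h1 : W.card ≤ P.card * Y.card := by
      rw [hW]
      refine Finset.card_biUnion_le.trans ?_
      rw [← smul_eq_mul, ← Finset.sum_const]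
      exact Finset.sum_le_sum fun w _ => Finset.card_image_le
    have h2 : (W.card : ℝ) ≤ P.card * Y.card := by exact_mod_cast h1
    have h3 : (P.card : ℝ) * Y.card ≤ P.card * (|C| * (r + 1)) :=
      mul_le_mul_of_nonneg_left hYc hP0
    have h4 : 0 ≤ (|B| + M + c * P.card + 1) * (r + 1) := by positivity
    calc (W.card : ℝ) ≤ P.card * (|C| * (r + 1)) := h2.trans h3
      _ ≤ P.card * (|C| * (r + 1)) + (|B| + M + c * P.card + 1) * (r + 1) := by linarith
      _ = _ := by ring
  · intro z hz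
    rw [hW, Finset.mem_biUnion] at hz
    obtain ⟨w, hw', hz⟩ := hz
    obtain ⟨g', hg', rfl⟩ := Finset.mem_image.1 hz
    obtain ⟨i, hi, rfl⟩ := Finset.mem_image.1 hg'
    have hi' := Finset.mem_range.1 hi
    have h1 := hya i hi'.le
    have h2 := hmul (y i) w
    have h3 := hmul (y i * w) w⁻¹
    rw [mul_inv_cancel_right, hinv] at h3
    have h4 : |l w| ≤ M := Finset.single_le_sum (f := fun p => |l p|)
      (fun p _ => abs_nonneg _) hw'
    have h5 := le_abs_self (l w)
    have h6 := le_abs_self B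
    have h7 : 0 ≤ |C| * P.card + c * P.card + 1 := by positivity
    rw [abs_le]
    constructor
    · linarith [h1.1]
    · linarith [h1.2]
  · have h1 : |f g - f h| ≤ ∑ i ∈ Finset.range m, |f (y (i + 1)) - f (y i)| := by
      rw [← hx0, ← hxn, ← hy0, ← hym, abs_sub_comm, ← Finset.sum_range_sub (fun i => f (y i)) m]
      exact Finset.abs_sum_le_sum_abs _ _
    have h2 : ∀ i ∈ Finset.range m, |f (y (i + 1)) - f (y i)| ≤
        c * ∑ w ∈ P, tv S f (y i * w) := by
      intro i hi
      have hi' := Finset.mem_range.1 hi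
      have h3 : (y i)⁻¹ * y (i + 1) ∈ (hf B).toFinset := by
        rw [Set.Finite.mem_toFinset]
        exact hys i hi'
      have h4 := hst _ h3 f (y i)
      rwa [mul_inv_cancel_left] at h4
    have h3 := Finset.sum_le_sum h2
    rw [← Finset.mul_sum, Finset.sum_comm] at h3
    have h4 : ∀ w ∈ P, ∑ i ∈ Finset.range m, tv S f (y i * w) ≤ ∑ x ∈ W, tv S f x := by
      intro w hw'
      have h5 : ∑ i ∈ Finset.range m, tv S f (y i * w) = ∑ g ∈ Y.image (fun g => g * w),
          tv S f g := by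
        rw [Finset.sum_image (fun a _ b _ hab => mul_right_cancel hab), hY,
          Finset.sum_image hinj]
      rw [h5]
      exact Finset.sum_le_sum_of_subset_of_nonneg
        (Finset.subset_biUnion_of_mem (fun w => Y.image (fun g => g * w)) hw')
        (fun x _ _ => tv_nonneg S f x)
    have h5 := Finset.sum_le_sum h4
    rw [Finset.sum_const, nsmul_eq_mul] at h5
    have h6 := mul_le_mul_of_nonneg_left h5 hc
    have h7 : 0 ≤ (|C| * P.card + (|B| + M) + 1) * ∑ x ∈ W, tv S f x := by positivity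
    calc |f g - f h| ≤ c * (P.card * ∑ x ∈ W, tv S f x) := (h1.trans h3).trans h6
      _ ≤ c * (P.card * ∑ x ∈ W, tv S f x) +
          (|C| * P.card + (|B| + M) + 1) * ∑ x ∈ W, tv S f x := by linarith
      _ = _ := by ring

/-- functions without local extrema take their large values near every large sphere -/
theorem reach {X : Type u} [MetricSpace X] {G : Type v} [Group G] [MulAction G X]
    (hG : Geo X G) (o : X) (S : Finset G) (hS : Subgroup.closure (S : Set G) = ⊤)
    (hSinv : ∀ s ∈ S, s⁻¹ ∈ S)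
    (D : ℝ) (hD : ∀ s ∈ S, dist o (s • o) ≤ D) (f : G → ℝ)
    (hf : NoExt S f)
    (u₀ v₀ : G) (hv : f v₀ < f u₀) (r : ℝ) (hr : dist o (u₀ • o) ≤ r) :
    ∃ g : G, r ≤ dist o (g • o) ∧ dist o (g • o) ≤ r + D ∧ f u₀ ≤ f g := by
  classical
  have := hG.isom
  set a := f u₀ with ha
  have hu : a ≤ f u₀ := le_refl _
  have hD0 : 0 ≤ D := by
    by_contra hneg
    have hSe : (S : Set G) = ∅ := by
      rw [Set.eq_empty_iff_forall_notMem]
      intro s hs
      have := hD s hs
      exact hneg (dist_nonneg.trans this)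
    rw [hSe, Subgroup.closure_empty] at hS
    have h1 : ∀ g : G, g = 1 := fun g => by
      have : g ∈ (⊥ : Subgroup G) := by rw [hS]; trivial
      exact Subgroup.mem_bot.1 this
    rw [h1 v₀, ← h1 u₀] at hv
    exact absurd hv (not_lt.2 hu)
  by_contra hno
  push Not at hno
  let K : Set G := {g | Relation.ReflTransGen (fun g h => ∃ s ∈ S, h = g * s ∧ a ≤ f h) u₀ g}
  have hK : ∀ g ∈ K, a ≤ f g ∧ dist o (g • o) < r := by
    intro g hg
    induction hg with
    | refl =>
      refine ⟨hu, ?_⟩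
      by_contra h
      push Not at h
      exact absurd hu (not_le.2 (hno u₀ h (by linarith)))
    | @tail b c _ hstep ih =>
      obtain ⟨s, hs, rfl, hc⟩ := hstep
      refine ⟨hc, ?_⟩
      by_contra h
      push Not at h
      have h1 : dist o ((b * s) • o) ≤ dist o (b • o) + D := by
        calc dist o ((b * s) • o) ≤ dist o (b • o) + dist (b • o) ((b * s) • o) :=
              dist_triangle _ _ _
          _ = dist o (b • o) + dist o (s • o) := by rw [mul_smul, dist_smul]
          _ ≤ _ := by linarith [hD s hs]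
      exact absurd hc (not_le.2 (hno _ h (by linarith [ih.2])))
  have hKfin : K.Finite :=
    (Pool.Agent.Y528.EL.ball_finite hG o r).subset fun g hg => (hK g hg).2.le
  obtain ⟨g₀, hg₀, hmax⟩ := Set.exists_max_image K f hKfin ⟨u₀, Relation.ReflTransGen.refl⟩
  have hstep : ∀ g ∈ K, f g = f g₀ → ∀ s ∈ S, g * s ∈ K ∧ f (g * s) = f g₀ := by
    intro g hg hfg s hs
    have hle : ∀ t ∈ S, f (g * t) ≤ f g := by
      intro t ht
      by_cases h : a ≤ f (g * t)
      · have := hmax (g * t) (Relation.ReflTransGen.tail hg ⟨t, ht, rfl, h⟩)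
        linarith
      · linarith [(hK g hg).1]
    have h0 := hf g (Or.inl hle) s hs
    have h1 : f (g * s) = f g₀ := by linarith
    exact ⟨Relation.ReflTransGen.tail hg ⟨s, hs, rfl, by linarith [(hK g₀ hg₀).1]⟩, h1⟩
  have hall : ∀ h : G, g₀ * h ∈ K ∧ f (g₀ * h) = f g₀ := by
    intro h
    have hh : h ∈ Subgroup.closure (S : Set G) := by rw [hS]; trivial
    induction hh using Subgroup.closure_induction_right with
    | one => rw [mul_one]; exact ⟨hg₀, rfl⟩
    | mul_right x _ y hy hx =>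
      rw [← mul_assoc]
      exact hstep _ hx.1 hx.2 y hy
    | mul_inv_cancel x _ y hy hx =>
      rw [← mul_assoc]
      exact hstep _ hx.1 hx.2 y⁻¹ (hSinv y hy)
  have hfin := hall (g₀⁻¹ * v₀)
  rw [mul_inv_cancel_left] at hfin
  linarith [(hK g₀ hg₀).1]

theorem NoExt.neg {G : Type v} [Group G] {S : Finset G} {f : G → ℝ} (hf : NoExt S f) :
    NoExt S (fun g => - f g) := by
  intro g hg s hs
  have h1 := hf g (by
    rcases hg with h | h
    · exact Or.inr fun s hs => by have := h s hs; simp only at this; linarith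
    · exact Or.inl fun s hs => by have := h s hs; simp only at this; linarith) s hs
  simp only [h1]

/-- the inequality of Courant and Lebesgue -/
theorem courant {X : Type u} [MetricSpace X] {G : Type v}
    [Group G] [MulAction G X] (hG : Geo X G) (hGC : GC X) (hno : ∀ g : G, ¬ RankOne X g) (o : X)
    (S : Finset G) (hSinv : ∀ s ∈ S, s⁻¹ ∈ S) (hgen : Subgroup.closure (S : Set G) = ⊤) :
    ∃ K : ℝ, 0 < K ∧ ∀ f : G → ℝ, NoExt S f → ∀ (r : ℝ) (p q : G), 1 ≤ r →
      dist o (p • o) ≤ r → dist o (q • o) ≤ r → ∃ W : Finset G, (W.card : ℝ) ≤ K * r ∧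
        (∀ x ∈ W, |dist o (x • o) - r| ≤ K) ∧ |f p - f q| ≤ K * ∑ x ∈ W, tv S f x := by
  classical
  have hisom := hG.isom
  set D : ℝ := ∑ s ∈ S, dist o (s • o) with hD
  have hD0 : 0 ≤ D := Finset.sum_nonneg fun _ _ => dist_nonneg
  have hDs : ∀ s ∈ S, dist o (s • o) ≤ D := fun s hs =>
    Finset.single_le_sum (f := fun s => dist o (s • o)) (fun _ _ => dist_nonneg) hs
  obtain ⟨B, C', hW⟩ := Pool.Agent.Y914.EL.t_WLK X G hG hGC o 42
    (fun c c' hc hc' => linked hG hno o c c' hc hc') D hD0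
  have hmul : ∀ g k : G, dist o ((g * k) • o) ≤ dist o (g • o) + dist o (k • o) := by
    intro g k
    have h1 := dist_triangle o (g • o) ((g * k) • o)
    rw [mul_smul, dist_smul] at h1
    rw [mul_smul]
    exact h1
  have hinv : ∀ g : G, dist o (g⁻¹ • o) = dist o (g • o) := by
    intro g
    rw [← dist_smul g o (g⁻¹ • o), smul_inv_smul, dist_comm]
  obtain ⟨K, hK, hcore⟩ := core (fun g : G => dist o (g • o))
    (Pool.Agent.Y528.EL.ball_finite hG o) hmul hinv S hgen D B C' hW
  refine ⟨2 * K, by positivity, fun f hf => ?_⟩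
  have key : ∀ (r : ℝ) (p q : G), 1 ≤ r → dist o (p • o) ≤ r → dist o (q • o) ≤ r →
      f q < f p → ∃ W : Finset G, (W.card : ℝ) ≤ 2 * K * r ∧
        (∀ x ∈ W, |dist o (x • o) - r| ≤ 2 * K) ∧ |f p - f q| ≤ 2 * K * ∑ x ∈ W, tv S f x := by
    intro r p q hr hp hq hqp
    obtain ⟨g, hg1, hg2, hg3⟩ := reach hG o S hgen hSinv D hDs f hf p q hqp r hp
    obtain ⟨h, hh1, hh2, hh3⟩ := reach hG o S hgen hSinv D hDs (fun g => - f g) hf.neg q p
      (by linarith) r hq
    obtain ⟨W, hW1, hW2, hW3⟩ := hcore f r g h (by linarith) hg1 hg2 hh1 hh2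
    have h0 : 0 ≤ ∑ x ∈ W, tv S f x := Finset.sum_nonneg fun x _ => tv_nonneg S f x
    refine ⟨W, hW1.trans ?_, fun x hx => (hW2 x hx).trans (by linarith), ?_⟩
    · nlinarith
    · have h1 : |f p - f q| ≤ |f g - f h| := by
        rw [abs_of_pos (by linarith), abs_of_pos (by linarith)]
        linarith
      nlinarith
  intro r p q hr hp hq
  rcases lt_trichotomy (f q) (f p) with h | h | h
  · exact key r p q hr hp hq h
  · refine ⟨∅, ?_, ?_, ?_⟩
    · simp only [Finset.card_empty, Nat.cast_zero]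
      positivity
    · intro x hx
      exact absurd hx (Finset.notMem_empty x)
    · rw [h]
      simp
  · obtain ⟨W, h1, h2, h3⟩ := key r q p hr hq hp h
    exact ⟨W, h1, h2, by rwa [abs_sub_comm]⟩

end Pool.Agent.Q30.RG
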